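import Mathlib
import Pool.Agent.H19.SlowOsc

set_option autoImplicit false

namespace Pool.Agent.Results.MP_b2dc7d_gt.Commuting

open Set Cardinal Pool.Agent.H19.SlowOsc

universe u

/-- Slowly oscillating functions on the finitary ballean of `G`. -/
def SlowlyOscillating {G : Type*} [Group G] (f : G → ℝ) : Prop :=
  ∀ ε > 0, ∀ F : Set G, F.Finite → ∃ B : Set G, B.Finite ∧
    ∀ x ∉ B, Metric.ediam (f '' insert x ((· * x) '' F)) < ENNReal.ofReal ε

/-- Functions constant at infinity. -/
def ConstantAtInfinity {G : Type*} (f : G → ℝ) : Prop :=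
  ∃ c : ℝ, ∀ O ∈ nhds c, (f ⁻¹' O)ᶜ.Finite

/-- Let `K` be an uncountable subgroup of `G` with infinite centralizer such that every conjugate
`K'` of `K` has uncountable intersection with `K` or centralizes an uncountable subgroup of `K`.
Then every slowly oscillating function on `G` is constant at infinity. -/
theorem result (G : Type u) [Group G] (K : Subgroup G) (hK : ¬ (K : Set G).Countable)
    (hC : (Subgroup.centralizer (K : Set G) : Set G).Infinite)
    (hg : ∀ g : G, ¬ ((K ⊓ K.map (MulAut.conj g).toMonoidHom : Subgroup G) : Set G).Countable ∨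
      ¬ ((K ⊓ Subgroup.centralizer (K.map (MulAut.conj g).toMonoidHom : Set G) : Subgroup G) :
        Set G).Countable)
    (f : G → ℝ) (hf : SlowlyOscillating f) : ConstantAtInfinity f := by
  have e : ∀ g k : G, g * k * g⁻¹ ∈ K ↔ k ∈ K.map (MulAut.conj g⁻¹).toMonoidHom := fun g k =>
    ⟨fun h => ⟨_, h, by simp [mul_assoc]⟩, by rintro ⟨a, ha, rfl⟩; simpa [mul_assoc] using ha⟩
  refine const (fun g ε hε => ?_) K hK (hC.mono fun h hh k hk => (hh k hk).symm)
    fun g => (hg g⁻¹).imp (fun h h' => h (h'.mono fun k hk => And.intro hk.1 ((e g k).mpr hk.2)))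
      fun h h' => h (h'.mono fun k hk =>
        And.intro hk.1 fun k' hk' => (hk.2 k' ((e g k').mp hk')).symm)
  obtain ⟨B, hB, h⟩ := hf ε hε {g} (finite_singleton g)
  refine hB.subset fun x hx => by_contra fun h4 => not_le.mpr (show ε < |f (g * x) - f x| from hx) ?_
  have := (Metric.edist_le_ediam_of_mem (mem_image_of_mem f (mem_insert_of_mem _
    (mem_image_of_mem (· * x) (mem_singleton g))))
    (mem_image_of_mem f (mem_insert _ _))).trans (h x h4).le
  rwa [edist_le_ofReal hε.le, Real.dist_eq] at this

end Pool.Agent.Results.MP_b2dc7d_gt.Commuting
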